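import Pool.Agent.R595.RF
import Pool.Agent.R595.Kunen

/-!
# Successor levels of the well-founded Rudin-Frolik part
-/

set_option autoImplicit false

namespace Pool.Agent.Results.MP_e112c8_lc.SuccessorLevels

open Filter Set
open Pool.Agent.R595

/-- the continuous extension of `f : ω → βω` to `βω`, at `u`: `A ∈ tilde f u` iff
`{i | A ∈ f i} ∈ u`. -/
def tilde (f : ℕ → Ultrafilter ℕ) (u : Ultrafilter ℕ) : Ultrafilter ℕ := u.bind f

theorem mem_tilde (f : ℕ → Ultrafilter ℕ) (u : Ultrafilter ℕ) (A : Set ℕ) :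
    A ∈ tilde f u ↔ {i | A ∈ f i} ∈ u := Iff.rfl

/-- `u ≤_RF v` -/
def RF (u v : Ultrafilter ℕ) : Prop :=
  ∃ f : ℕ → Ultrafilter ℕ, Function.Injective f ∧ DiscreteTopology (range f) ∧ v = tilde f u

/-- `u <_RF v` -/
def Lt (u v : Ultrafilter ℕ) : Prop := RF u v ∧ ¬ RF v u

/-- `wf_α`: the accessible points of rank `α`. (`Acc.rank` is the supremum of the successors of
the ranks of the elements below.) -/
def Level (α : Ordinal.{0}) : Set (Ultrafilter ℕ) := {u | ∃ h : Acc Lt u, h.rank = α}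

/-- the set displayed in the question -/
def Disp (α : Ordinal.{0}) : Set (Ultrafilter ℕ) :=
  {w | ∃ (u : Ultrafilter ℕ) (f : ℕ → Ultrafilter ℕ), Function.Injective f ∧
    DiscreteTopology (range f) ∧ u ∈ Level α ∧ (∀ i, f i ∈ Level α) ∧ w = tilde f u}

/-- nonprincipal -/
def NP (u : Ultrafilter ℕ) : Prop := ∀ n : ℕ, {n} ∉ u

/-- discretely weak p-points -/
def DiscretelyWeakP (u : Ultrafilter ℕ) : Prop :=
  NP u ∧ ∀ D : Set (Ultrafilter ℕ), D.Countable → DiscreteTopology D → (∀ d ∈ D, NP d) →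
    u ∉ D → u ∉ closure D

/-- accessibility is the same as the nonexistence of infinite descending sequences -/
theorem acc_iff (u : Ultrafilter ℕ) :
    Acc Lt u ↔ ¬ ∃ s : ℕ → Ultrafilter ℕ, s 0 = u ∧ ∀ n, Lt (s (n + 1)) (s n) := by
  rw [← not_iff_not, not_not, not_acc_iff_exists_descending_chain]

theorem L_iff (n : ℕ) : ∀ u : Ultrafilter ℕ, RF.L n u ↔ ∃ h : Acc Lt u, h.rank < n := by
  induction n with
  | zero =>
    intro u
    constructor
    · exact fun h => h.elim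
    · rintro ⟨h, h'⟩
      simp at h'
  | succ n ih =>
    intro u
    constructor
    · intro h
      have hacc : Acc Lt u := ⟨u, fun v hv => ((ih v).1 (h v hv)).1⟩
      refine ⟨hacc, ?_⟩
      rw [Acc.rank_eq]
      refine lt_of_le_of_lt (b := (n : Ordinal)) ?_ (by exact_mod_cast Nat.lt_succ_self n)
      refine Ordinal.iSup_le ?_
      rintro ⟨v, hv⟩
      obtain ⟨h1, h2⟩ := (ih v).1 (h v hv)
      exact Order.succ_le_of_lt h2
    · rintro ⟨h, h'⟩ v hv
      refine (ih v).2 ⟨h.inv hv, ?_⟩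
      refine lt_of_lt_of_le (Acc.rank_lt_of_rel h hv) ?_
      rw [← Order.lt_succ_iff]
      exact_mod_cast h'

theorem level_iff (n : ℕ) (u : Ultrafilter ℕ) :
    u ∈ Level n ↔ RF.L (n + 1) u ∧ ¬ RF.L n u := by
  rw [L_iff, L_iff]
  constructor
  · rintro ⟨h, h'⟩
    refine ⟨⟨h, ?_⟩, ?_⟩
    · rw [h']
      exact_mod_cast Nat.lt_succ_self n
    · rintro ⟨_, h2⟩
      rw [h'] at h2
      exact lt_irrefl _ h2
  · rintro ⟨⟨h, h1⟩, h2⟩
    refine ⟨h, le_antisymm ?_ ?_⟩
    · rw [← Order.lt_succ_iff]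
      exact_mod_cast h1
    · exact not_lt.1 fun h3 => h2 ⟨h, h3⟩

/-- **Additivity of the rank.** -/
theorem additive (k m : ℕ) (u : Ultrafilter ℕ) (f : ℕ → Ultrafilter ℕ) (hf : Function.Injective f)
    (hd : DiscreteTopology (range f)) (hu : u ∈ Level k) (hm : ∀ i, f i ∈ Level m) :
    tilde f u ∈ Level ((k + m : ℕ) : Ordinal) := by
  obtain ⟨p, hp⟩ := RF.exists_proj hf hd
  have hrep : RF.Rep u (tilde f u) f p :=
    ⟨rfl, Filter.mem_of_superset Filter.univ_mem fun i _ => hp i⟩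
  rw [level_iff] at hu ⊢
  constructor
  · exact RF.upper m hrep (Filter.mem_of_superset Filter.univ_mem fun i _ =>
      ((level_iff m _).1 (hm i)).1) hu.1
  · exact RF.lower m hrep (Filter.mem_of_superset Filter.univ_mem fun i _ =>
      ((level_iff m _).1 (hm i)).2) hu.2

theorem discretelyWeakP_level {u : Ultrafilter ℕ} (hu : DiscretelyWeakP u) :
    u ∈ Level ((1 : ℕ) : Ordinal) := by
  rw [level_iff]
  refine ⟨?_, fun h => RF.not_np_of_L h hu.1⟩
  intro v hv
  obtain ⟨y, q, hq, hvy⟩ := RF.rf_iff.1 hv.1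
  have hy : RF.Rep v u y q := ⟨hvy, Filter.mem_of_superset Filter.univ_mem fun i _ => hq i⟩
  have hnp := RF.np_of_lt hy hv.2
  let D : Set (Ultrafilter ℕ) := y '' {j | WP.NP (y j)}
  have hDd : DiscreteTopology D :=
    DiscreteTopology.of_subset (RF.disc_of_proj hq) (image_subset_range _ _)
  have hcl : u ∈ closure D := by
    rw [WP.mem_closure]
    intro A hA
    rw [hvy, WP.mem_bind] at hA
    obtain ⟨j, hj1, hj2⟩ := Ultrafilter.nonempty_of_mem (Filter.inter_mem hA hnp)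
    exact ⟨y j, ⟨j, hj2, rfl⟩, hj1⟩
  have huD : u ∈ D := by
    by_contra hcon
    refine hu.2 D ((Set.to_countable _).image _) hDd ?_ hcon hcl
    rintro _ ⟨j, hj, rfl⟩
    exact hj
  obtain ⟨j, -, hj⟩ := huD
  have h1 : q ⁻¹' {j} ∈ u := by
    rw [← hj]
    exact hq j
  rw [hvy, WP.mem_bind] at h1
  have h2 : {j} ∈ v := by
    refine Filter.mem_of_superset h1 fun i hi => ?_
    obtain ⟨n, hn1, hn2⟩ := Ultrafilter.nonempty_of_mem (Filter.inter_mem hi (hq i))
    exact (hn2 : q n = i).symm.trans hn1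
  obtain ⟨n, rfl⟩ := RF.exists_pure_of_not_np (fun h => h j h2)
  exact RF.L_pure n

theorem iso_level {v : Ultrafilter ℕ} {n : ℕ} (i : ℕ) (h : v ∈ Level n) :
    v.map (Nat.pair i) ∈ Level n := by
  have h1 : RF.RF v (v.map (Nat.pair i)) := RF.map_pair_iso v i
  have h2 : RF.RF (v.map (Nat.pair i)) v := by
    refine RF.rf_of_rep (x := fun n => pure (Nat.unpair n).2) (p := Nat.pair i) ⟨?_, ?_⟩
    · rw [RF.bind_pure, Ultrafilter.map_map]
      have : (fun n => (Nat.unpair n).2) ∘ Nat.pair i = id := by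
        funext j
        simp
      rw [this, Ultrafilter.map_id]
    · refine Ultrafilter.mem_map.2 (Filter.mem_of_superset Filter.univ_mem fun j _ => ?_)
      change Nat.pair i (Nat.unpair (Nat.pair i j)).2 = Nat.pair i j
      simp
  rw [level_iff] at h ⊢
  exact ⟨RF.L_of_rf h.1 h2, fun h3 => h.2 (RF.L_of_rf h3 h1)⟩

/-- the columns -/
theorem tens_level {u v : Ultrafilter ℕ} {k m : ℕ} (hu : u ∈ Level k) (hv : v ∈ Level m) :
    tilde (fun i => v.map (Nat.pair i)) u ∈ Level ((k + m : ℕ) : Ordinal) := by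
  have hp : ∀ i, (fun n => (Nat.unpair n).1) ⁻¹' {i} ∈ v.map (Nat.pair i) := by
    intro i
    refine Ultrafilter.mem_map.2 (Filter.mem_of_superset Filter.univ_mem fun j _ => ?_)
    change (Nat.unpair (Nat.pair i j)).1 = i
    simp
  exact additive k m u _ (RF.inj_of_proj hp) (RF.disc_of_proj hp) hu fun i => iso_level i hv

theorem level_nonempty (n : ℕ) : (Level n).Nonempty := by
  induction n with
  | zero =>
    refine ⟨pure 0, (level_iff 0 _).2 ⟨RF.L_pure 0, fun h => h⟩⟩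
  | succ n ih =>
    obtain ⟨v, hv⟩ := ih
    obtain ⟨p, hp⟩ := Kun.exists_weakP
    have hp1 : p ∈ Level ((1 : ℕ) : Ordinal) :=
      discretelyWeakP_level ⟨hp.1, fun D h1 _ h2 h3 => hp.2 D h1 h2 h3⟩
    have h := tens_level hp1 hv
    rw [Nat.add_comm] at h
    exact ⟨_, h⟩

theorem disp_nonempty (n : ℕ) : (Disp n).Nonempty := by
  obtain ⟨v, hv⟩ := level_nonempty n
  have hp : ∀ i, (fun n => (Nat.unpair n).1) ⁻¹' {i} ∈ v.map (Nat.pair i) := by
    intro i
    refine Ultrafilter.mem_map.2 (Filter.mem_of_superset Filter.univ_mem fun j _ => ?_)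
    change (Nat.unpair (Nat.pair i j)).1 = i
    simp
  exact ⟨_, v, fun i => v.map (Nat.pair i), RF.inj_of_proj hp, RF.disc_of_proj hp, hv,
    fun i => iso_level i hv, rfl⟩

theorem disp_subset (n : ℕ) : Disp n ⊆ Level ((2 * n : ℕ) : Ordinal) := by
  rintro w ⟨u, f, h1, h2, h3, h4, rfl⟩
  rw [two_mul]
  exact additive n n u f h1 h2 h3 h4

theorem level_unique {u : Ultrafilter ℕ} {α β : Ordinal.{0}} (h1 : u ∈ Level α)
    (h2 : u ∈ Level β) : α = β := by
  obtain ⟨h, rfl⟩ := h1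
  obtain ⟨h', rfl⟩ := h2
  rfl

theorem level_two_subset : Level ((1 + 1 : ℕ) : Ordinal) ⊆ Disp ((1 : ℕ) : Ordinal) := by
  intro w hw
  rw [level_iff] at hw
  obtain ⟨h3, h2⟩ := hw
  have h2' : ¬ ∀ v, RF.Lt v w → RF.L 1 v := h2
  push Not at h2'
  obtain ⟨u, hu, hu1⟩ := h2'
  have hu2 : RF.L 2 u := h3 u hu
  have hunp : WP.NP u := by
    by_contra hcon
    obtain ⟨n, rfl⟩ := RF.exists_pure_of_not_np hcon
    exact hu1 (RF.L_pure n)
  obtain ⟨f, p, hp, hf⟩ := RF.rf_iff.1 hu.1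
  have hrep : RF.Rep u w f p := ⟨hf, Filter.mem_of_superset Filter.univ_mem fun i _ => hp i⟩
  have hnp := RF.np_of_lt hrep hu.2
  have hL2 : {i | RF.L 2 (f i)} ∈ u := by
    by_contra hcon
    exact RF.lower 2 (k := 1) hrep (WP.compl_mem.2 hcon) hu1 h3
  have hI : {i | f i ∈ Level ((1 : ℕ) : Ordinal)} ∈ u := by
    filter_upwards [hL2, hnp] with i hi1 hi2
    exact (level_iff 1 _).2 ⟨hi1, fun h => RF.not_np_of_L h hi2⟩
  obtain ⟨τ, hτ1, hτ2, hτ3⟩ := RF.exists_retract hunp hI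
  have hinj : Function.Injective (f ∘ τ) := (RF.inj_of_proj hp).comp hτ1
  have hdisc : DiscreteTopology (range (f ∘ τ)) :=
    DiscreteTopology.of_subset (RF.disc_of_proj hp) (range_comp_subset_range _ _)
  refine ⟨u, f ∘ τ, hinj, hdisc, (level_iff 1 _).2 ⟨hu2, hu1⟩, hτ2, ?_⟩
  rw [hf]
  apply RF.bind_congr
  filter_upwards [hτ3] with i hi
  have hi' : τ i = i := hi
  change f i = f (τ i)
  rw [hi']

/-- **Answer to Q1 (disproof) and to the instance asked along with it.**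
* The displayed equality holds for `n = 1` and for no other `n > 0`.
* For every `n ≥ 2` the displayed set is nonempty and contained in `wf_{2n}`, hence is disjoint
from the nonempty set `wf_{n+1}`.
* For `u ∈ wf_k` and `f` one-to-one with discrete range contained in `wf_m` (`k`, `m` finite),
`tilde f u ∈ wf_{k+m}`.
* If `u` and all `f i` are discretely weak p-points, then `tilde f u ∈ wf_2 ⊆ wf_{≤ 2}`. -/
theorem result :
    (∀ n : ℕ, 0 < n → (Level ((n + 1 : ℕ) : Ordinal) = Disp (n : Ordinal) ↔ n = 1)) ∧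
    (∀ n : ℕ, 2 ≤ n → (Disp (n : Ordinal)).Nonempty ∧
      Disp (n : Ordinal) ⊆ Level ((2 * n : ℕ) : Ordinal) ∧
      (Level ((n + 1 : ℕ) : Ordinal)).Nonempty ∧
      Disjoint (Disp (n : Ordinal)) (Level ((n + 1 : ℕ) : Ordinal))) ∧
    (∀ (k m : ℕ) (u : Ultrafilter ℕ) (f : ℕ → Ultrafilter ℕ), Function.Injective f →
      DiscreteTopology (range f) → u ∈ Level (k : Ordinal) → (∀ i, f i ∈ Level (m : Ordinal)) →
      tilde f u ∈ Level ((k + m : ℕ) : Ordinal)) ∧
    (∀ (u : Ultrafilter ℕ) (f : ℕ → Ultrafilter ℕ), Function.Injective f →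
      DiscreteTopology (range f) → DiscretelyWeakP u → (∀ i, DiscretelyWeakP (f i)) →
      tilde f u ∈ Level 2) ∧
    (∀ u : Ultrafilter ℕ,
      Acc Lt u ↔ ¬ ∃ s : ℕ → Ultrafilter ℕ, s 0 = u ∧ ∀ n, Lt (s (n + 1)) (s n)) := by
  have hdisj : ∀ n : ℕ, n ≠ 1 →
      Disjoint (Disp (n : Ordinal)) (Level ((n + 1 : ℕ) : Ordinal)) := by
    intro n hn
    rw [Set.disjoint_left]
    intro w hw1 hw2
    have h1 := level_unique (disp_subset n hw1) hw2
    have h2 : 2 * n = n + 1 := by exact_mod_cast h1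
    omega
  refine ⟨fun n hn => ⟨fun h => ?_, ?_⟩, fun n hn => ⟨disp_nonempty n, disp_subset n,
    level_nonempty (n + 1), hdisj n (by omega)⟩, additive, ?_, acc_iff⟩
  · by_contra hne
    obtain ⟨w, hw⟩ := disp_nonempty n
    exact Set.disjoint_left.1 (hdisj n hne) hw (h ▸ hw)
  · rintro rfl
    exact Subset.antisymm level_two_subset (disp_subset 1)
  · intro u f hf hd hu hfi
    have h := additive 1 1 u f hf hd (discretelyWeakP_level hu)
      fun i => discretelyWeakP_level (hfi i)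
    have h2 : ((1 + 1 : ℕ) : Ordinal) = 2 := by norm_num
    rwa [h2] at h

end Pool.Agent.Results.MP_e112c8_lc.SuccessorLevels
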